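import Pool.Agent.W321.SQ.Comb

/-!
# Project SQ: choice of the parameters (CORE)
-/

set_option autoImplicit false

namespace Pool.Agent.W320.SQ

open Finset Pool.Agent.W321.SP Pool.Agent.W321.SQ

theorem exU {g₁ g₂ g₃ : ℕ} (hp : P3 g₁ g₂ g₃) (m : ℕ) (hm : g₁ ≤ m) :
    ∃ U, g₁ ∣ U ∧ ¬ g₃ ∣ U ∧ U ≤ m ∧ m ≤ U + 2 * g₁ := by
  have h1 := hp.h1
  have h12 := hp.h12
  have h23 := hp.h23
  have hpos : 0 < g₁ := by omega
  have hq1 : 1 ≤ m / g₁ := (Nat.one_le_div_iff hpos).2 hm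
  have hq2 : g₁ * (m / g₁) ≤ m := Nat.mul_div_le m g₁
  have hq3 : m < g₁ * (m / g₁ + 1) := Nat.lt_mul_div_succ m hpos
  obtain ⟨q, hq⟩ : ∃ q, q = m / g₁ := ⟨_, rfl⟩
  rw [← hq] at hq1 hq2 hq3
  have hnd : ¬ g₃ ∣ g₁ := fun h => by
    have := Nat.le_of_dvd hpos h
    omega
  have hdiv : ∀ x : ℕ, g₃ ∣ g₁ * x → g₃ ∣ x := fun x hx =>
    ((hp.p3.dvd_mul).1 hx).resolve_left hnd
  by_cases h : g₃ ∣ q
  · obtain ⟨p, rfl⟩ : ∃ p, q = p + 1 := ⟨q - 1, by omega⟩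
    refine ⟨g₁ * p, dvd_mul_right _ _, fun h' => ?_, ?_, ?_⟩
    · have h2 := hdiv p h'
      have h3 : g₃ ∣ 1 := (Nat.dvd_add_right h2).1 h
      have h4 := Nat.le_of_dvd one_pos h3
      omega
    · nlinarith
    · nlinarith
  · refine ⟨g₁ * q, dvd_mul_right _ _, fun h' => h (hdiv q h'), hq2, ?_⟩
    nlinarith

theorem z_core (hM : MvStm) (hC : CombStm) : CoreStm := by
  intro ε η hε hε1 hη
  obtain ⟨g₁, g₂, g₃, h13, hp1, hp2, hp3, h12, h23, hB⟩ := hM ε 13 hε hε1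
  have hP : P3 g₁ g₂ g₃ := ⟨hp1, hp2, hp3, h13, h12, h23⟩
  obtain ⟨G, hG⟩ : ∃ G : ℕ, G = g₁ * g₂ * g₃ := ⟨_, rfl⟩
  have hg2 : 0 < g₂ := hp2.pos
  have hg3 : 0 < g₃ := hp3.pos
  have hg1 : 0 < g₁ := hp1.pos
  have hG1 : g₁ ≤ G := by
    rw [hG, mul_assoc]
    exact Nat.le_mul_of_pos_right _ (Nat.mul_pos hg2 hg3)
  have hG1r : (g₁ : ℝ) ≤ G := by exact_mod_cast hG1
  have hG1' : (1 : ℝ) ≤ G := by exact_mod_cast (show 1 ≤ G by omega)
  have hGr : (0 : ℝ) < G := by linarith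
  obtain ⟨β, hβdef⟩ : ∃ β : ℝ, β = min (η / 64) (ε / (10 ^ 10 * G)) := ⟨_, rfl⟩
  have hβ : 0 < β := by
    rw [hβdef]
    exact lt_min (by positivity) (by positivity)
  have hβ1 : β ≤ η / 64 := by rw [hβdef]; exact min_le_left _ _
  have hβ2 : β * (10 ^ 10 * G) ≤ ε := by
    rw [← le_div_iff₀ (by positivity), hβdef]
    exact min_le_right _ _
  obtain ⟨Bm, m₀, hB⟩ := hB β hβ
  refine ⟨β, ⌈10 ^ 10 * (G : ℝ) / ε + 2 * ((Bm : ℝ) + 2) / ε + m₀ + 4 / η⌉₊, hβ, ?_⟩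
  intro V _ _ T hT v par rk hrt hadj hadj2 L r hL hcard hr hLε K Gd c₀ c₁ d hclu hK N a hchs
    hdis hN
  -- real inequalities for `r`
  have hr' : 10 ^ 10 * (G : ℝ) / ε + 2 * ((Bm : ℝ) + 2) / ε + m₀ + 4 / η ≤ r :=
    (Nat.le_ceil _).trans (by exact_mod_cast hr)
  have t1 : 0 ≤ 10 ^ 10 * (G : ℝ) / ε := by positivity
  have t2 : 0 ≤ 2 * ((Bm : ℝ) + 2) / ε := by positivity
  have t3 : (0 : ℝ) ≤ m₀ := by positivity
  have t4 : 0 ≤ 4 / η := by positivity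
  have hr1 : 10 ^ 10 * (G : ℝ) ≤ r * ε := by
    rw [← div_le_iff₀ hε]; linarith
  have hr2 : 2 * ((Bm : ℝ) + 2) ≤ r * ε := by
    rw [← div_le_iff₀ hε]; linarith
  have hr3 : (m₀ : ℝ) ≤ r := by linarith
  have hr4 : 4 ≤ r * η := by
    rw [← div_le_iff₀ hη]; linarith
  have hr0 : (0 : ℝ) ≤ r := Nat.cast_nonneg r
  have hBm0 : (0 : ℝ) ≤ Bm := Nat.cast_nonneg Bm
  have hl0 : (0 : ℝ) ≤ L.card := Nat.cast_nonneg _
  have hre : (r : ℝ) * ε ≤ r * (1 / 10) := mul_le_mul_of_nonneg_left hε1 hr0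
  have hc0 : (0 : ℝ) < 1 - ε / 2 := by linarith
  -- `mt`
  obtain ⟨mt, hmt⟩ : ∃ mt : ℕ, mt = ⌈((r : ℝ) + Bm + 1) / (1 - ε / 2)⌉₊ := ⟨_, rfl⟩
  have hmt1 : (r : ℝ) + Bm + 1 ≤ (mt : ℝ) * (1 - ε / 2) := by
    rw [← div_le_iff₀ hc0, hmt]; exact Nat.le_ceil _
  have hmt2 : ((mt : ℝ) - 1) * (1 - ε / 2) ≤ (r : ℝ) + Bm + 1 := by
    rw [← le_div_iff₀ hc0]
    have := Nat.ceil_lt_add_one (a := ((r : ℝ) + Bm + 1) / (1 - ε / 2)) (by positivity)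
    rw [← hmt] at this
    linarith
  have hmt0 : (0 : ℝ) ≤ mt := Nat.cast_nonneg mt
  have hmte : 0 ≤ (mt : ℝ) * ε := by positivity
  have hmte1 : (mt : ℝ) * ε ≤ mt * (1 / 10) := mul_le_mul_of_nonneg_left hε1 hmt0
  have hmt3 : (r : ℝ) ≤ mt := by linarith
  have hmt4 : (mt : ℝ) ≤ 2 * r := by linarith
  have hrm : (r : ℝ) * ε ≤ mt * ε := mul_le_mul_of_nonneg_right hmt3 hε.le
  have hmt5 : (mt : ℝ) ≤ L.card + r := by
    have h1 : (mt : ℝ) * (1 - ε / 2) ≤ ((L.card : ℝ) + r) * (1 - ε / 2) := by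
      have h2 : 0 ≤ (L.card : ℝ) * ε := by positivity
      linarith
    exact le_of_mul_le_mul_right h1 hc0
  have hmtm0 : m₀ ≤ mt := by exact_mod_cast hr3.trans hmt3
  -- the leaves
  have hBL : Bm ≤ L.card := by
    have h1 : (Bm : ℝ) ≤ L.card := by
      have h2 : 0 ≤ (L.card : ℝ) * ε := by positivity
      linarith
    exact_mod_cast h1
  obtain ⟨L₀, hL₀, hL₀c⟩ := Finset.exists_subset_card_eq (show L.card - Bm ≤ L.card by omega)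
  have hLd : (L \ L₀).card = Bm := by
    rw [Finset.card_sdiff_of_subset hL₀]
    omega
  -- `K`
  have hKr : (K.card : ℝ) ≤ β * mt := hK.trans (mul_le_mul_of_nonneg_left hmt3 hβ.le)
  obtain ⟨k, hk⟩ : ∃ k : ℕ, k = K.card := ⟨_, rfl⟩
  -- `n`
  obtain ⟨n, hn⟩ : ∃ n : ℕ, n = ⌈β * mt⌉₊ + 2 * K.card + 1 := ⟨_, rfl⟩
  have hbm0 : 0 ≤ β * mt := by positivity
  have hnr : (n : ℝ) ≤ 3 * (β * mt) + 2 := by
    have h1 := Nat.ceil_lt_add_one hbm0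
    rw [hn]; push_cast
    linarith
  have hnN : n ≤ N := by
    have h1 : (n : ℝ) ≤ N := by
      have h2 : β * mt ≤ (η / 64) * (2 * r) := mul_le_mul hβ1 hmt4 hmt0 (by positivity)
      have h3 : 0 ≤ η * r := by positivity
      linarith
    exact_mod_cast h1
  have hGm : 10 ^ 10 * (G : ℝ) ≤ mt * ε := hr1.trans hrm
  have hGb : 10 ^ 10 * (G * (β * mt)) ≤ mt * ε := by
    have := mul_le_mul_of_nonneg_right hβ2 hmt0
    linarith
  have hGn : 10 ^ 10 * ((G : ℝ) * n) ≤ 3 * (mt * ε) + 2 * (10 ^ 10 * G) := by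
    have := mul_le_mul_of_nonneg_left hnr hGr.le
    linarith
  have hGk : 10 ^ 10 * ((G : ℝ) * K.card) ≤ mt * ε := by
    have := mul_le_mul_of_nonneg_left hKr hGr.le
    linarith
  -- `U`
  have hmg : g₁ ≤ mt := by
    have : (g₁ : ℝ) ≤ mt := by linarith
    exact_mod_cast this
  obtain ⟨U, hU1, hU2, hU3, hU4⟩ := exU hP mt hmg
  have hU3r : (U : ℝ) ≤ mt := by exact_mod_cast hU3
  have hU4r : (mt : ℝ) ≤ U + 2 * g₁ := by exact_mod_cast hU4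
  -- `B`
  obtain ⟨B, hBd⟩ : ∃ B : ℕ, B = ⌊(1 - ε / 8) * (mt : ℝ)⌋₊ := ⟨_, rfl⟩
  have hB0 : 0 ≤ (1 - ε / 8) * (mt : ℝ) := mul_nonneg (by linarith) hmt0
  have hB1 : (B : ℝ) ≤ (1 - ε / 8) * mt := by rw [hBd]; exact Nat.floor_le hB0
  have hB2 : (1 - ε / 8) * mt ≤ (B : ℝ) + 1 := by rw [hBd]; exact (Nat.lt_floor_add_one _).le
  -- the tree
  have hedge : T.edgeSet.ncard = L.card + r := by
    classical
    have h1 := hT.card_edgeFinset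
    have h2 : T.edgeSet.ncard = T.edgeFinset.card := by
      rw [← SimpleGraph.coe_edgeFinset, Set.ncard_coe_finset]
    omega
  refine hC V T hT v par rk hrt hadj hadj2 L₀ (fun x hx => hL x (hL₀ hx)) K Gd c₀ c₁ d hclu n a
    ⟨fun i hi => hchs.par_a i (hi.trans_le hnN), fun i hi => hchs.ne_v i (hi.trans_le hnN),
      fun i hi j hj i' hi' => hchs.inj i (hi.trans_le hnN) j hj i' (hi'.trans_le hnN),
      fun i hi => hchs.only i (hi.trans_le hnN)⟩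
    (fun i hi => hdis i (hi.trans_le hnN)) g₁ g₂ g₃ B U (10 ^ 4 * (g₁ * g₂ * g₃)) ⌊β * mt⌋₊ hP
    ?_ (by omega) ?_ hU1 hU2 le_rfl ?_ ?_ ?_ ?_
  · intro W pc hvW hpc hWc hch
    have hside1 : (W.card : ℝ) ≤ (1 - ε / 2) * mt + 1 := by
      have h1 : W.card ≤ r + Bm + 1 := by omega
      have h2 : (W.card : ℝ) ≤ r + Bm + 1 := by exact_mod_cast h1
      linarith
    have hside2 : Bm ≤ (W.filter (fun x => x ≠ v ∧ pc x = v)).card := by
      rw [← hLd]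
      apply Finset.card_le_card
      intro x hx
      rw [Finset.mem_sdiff] at hx
      obtain ⟨hx1, hx2, hx3⟩ := hL x hx.1
      have hxK : x ∉ K := by
        intro hxK
        have hx0 : x = c₀ := by
          by_contra hne
          exact hclu.v_not (hx2 ▸ hclu.up x hxK hne)
        have hc1v : c₁ ≠ v := fun h => hclu.v_not (h ▸ hclu.c1)
        exact hx3 c₁ hc1v (hclu.par1.trans hx0.symm)
      obtain ⟨h5, h6⟩ := hch x hx1 hx2 hx.2 hxK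
      exact Finset.mem_filter.2 ⟨h5, hx1, h6⟩
    obtain ⟨g, q1, q2, q3, q4, q5, q6⟩ := hB mt V W v pc rk hmtm0 hvW hside1 hpc hside2
    refine ⟨g, q1, fun x hx => ?_, q3, q4, ?_, q6⟩
    · rw [hBd]; exact Nat.le_floor (q2 x hx)
    · exact Nat.le_floor q5
  · have := Nat.floor_le_ceil (β * (mt : ℝ))
    omega
  · rw [← hG]
    have h1 : ((B + 10 ^ 7 * G * n + 100 * (10 ^ 4 * G) : ℕ) : ℝ) ≤ (U : ℝ) := by
      push_cast
      linarith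
    exact_mod_cast h1
  · rw [← hG]
    have h1 : ((1000 * (10 ^ 4 * G) * (K.card + n + 1) : ℕ) : ℝ) ≤ (U : ℝ) := by
      push_cast
      linarith
    exact_mod_cast h1
  · have h1 : ((3 * U : ℕ) : ℝ) ≤ ((4 * B : ℕ) : ℝ) := by
      push_cast
      linarith
    exact_mod_cast h1
  · rw [hedge]
    have : (U : ℝ) ≤ ((L.card + r : ℕ) : ℝ) := by push_cast; linarith
    exact_mod_cast this

end Pool.Agent.W320.SQ
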